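import Mathlib
import Pool.Agent.H30Fi7

set_option autoImplicit false

namespace Pool.Agent.Results.MP_5484c7_co.Cliques

theorem result :
    ∀ n : ℕ, 3 ≤ n → ∀ N : ℕ,
      ∃ (m : ℕ) (G : SimpleGraph (Fin m)), N ≤ m ∧
        Function.Injective
          (fun v : Fin m =>
            {H : G.Subgraph | Nonempty (H.coe ≃g (⊤ : SimpleGraph (Fin n))) ∧ v ∈ H.verts}.ncard) := by
  intro n hn N
  have : Nonempty (Fin n) := ⟨⟨0, by omega⟩⟩
  exact Pool.Agent.H30Fi.strong _ (by simpa using hn) SimpleGraph.connected_top N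

end Pool.Agent.Results.MP_5484c7_co.Cliques
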