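import Mathlib
import Pool.Agent.H30Fi7

set_option autoImplicit false

namespace Pool.Agent.Results.MP_5484c7_co.Stars

theorem result :
    ∀ n : ℕ, 2 ≤ n → ∀ N : ℕ,
      ∃ (m : ℕ) (G : SimpleGraph (Fin m)), N ≤ m ∧
        Function.Injective
          (fun v : Fin m =>
            {H : G.Subgraph | Nonempty (H.coe ≃g completeBipartiteGraph (Fin 1) (Fin n)) ∧ v ∈ H.verts}.ncard) := by
  intro n hn N
  refine Pool.Agent.H30Fi.strong _ (by simp; omega) ?_ N
  have key : ∀ v, (completeBipartiteGraph (Fin 1) (Fin n)).Reachable (Sum.inl 0) v := by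
    rintro (v | v)
    · rw [Subsingleton.elim v 0]
    · exact SimpleGraph.Adj.reachable (by simp)
  exact ⟨fun u v => (key u).symm.trans (key v)⟩

end Pool.Agent.Results.MP_5484c7_co.Stars
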